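import Pool.Agent.TH735.BF.Closure
import Pool.Agent.Y566.GQ.Cnt

/-!
Borel enumeration of the closures of tuples of complex numbers.
-/

set_option autoImplicit false

namespace Pool.Agent.N587.IC

open Set MeasureTheory
open Pool.Agent.TH735.QM Pool.Agent.TH735.FO Pool.Agent.TH735.BF

theorem closure_enum {m : ℕ → ℕ} {F : (k : ℕ) → (Fin (m k) → ℂ) → ℂ → ℂ}
    (hF : ∀ k, AnalyticOnNhd ℂ (fun p : (Fin (m k) → ℂ) × ℂ => F k p.1 p.2) Set.univ)
    {A : Set ℂ} (hA : A.Countable) (n : ℕ) :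
    ∃ g : ℕ → (Fin (n + 1) → ℂ) → ℂ, (∀ i, Measurable (g i)) ∧
      (∀ s, range (fun i => g i s) = {z | Cl F (A ∪ range s) z}) ∧
      (∀ a : Fin (n + 1), ∃ i, g i = fun s => s a) ∧
      (∀ z, Cl F A z → ∃ i, g i = fun _ => z) := by
  classical
  have hz := fun k => (Pool.Agent.Y566.GQ.zeros_enum (hF k)).2
  choose Az gz hAz hgz hzz using hz
  set L0 : Set ((Fin (n + 1) → ℂ) → ℂ) :=
    range (fun a : Fin (n + 1) => fun s : Fin (n + 1) → ℂ => s a) ∪
      (fun z : ℂ => fun _ : Fin (n + 1) → ℂ => z) '' {z | Cl F A z} with hL0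
  set h : (k : ℕ) → ℕ → (Fin (m k) → ((Fin (n + 1) → ℂ) → ℂ)) → ((Fin (n + 1) → ℂ) → ℂ) :=
    fun k j y s => if (fun a => y a s) ∈ Az k j then gz k j (fun a => y a s) else s 0 with hh
  set L : ℕ → Set ((Fin (n + 1) → ℂ) → ℂ) := fun t => Nat.rec L0
    (fun _ T => T ∪ ⋃ k, ⋃ j, (h k j) '' {y | ∀ a, y a ∈ T}) t with hL
  have hLz : L 0 = L0 := rfl
  have hLs : ∀ t, L (t + 1) = L t ∪ ⋃ k, ⋃ j, (h k j) '' {y | ∀ a, y a ∈ L t} := fun t => rfl
  have hcount : ∀ t, (L t).Countable := by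
    intro t
    induction t with
    | zero =>
      rw [hLz]
      exact (countable_range _).union ((cl_countable hF hA).image _)
    | succ t ih =>
      rw [hLs]
      exact ih.union (countable_iUnion fun k => countable_iUnion fun j =>
        (countable_pi (fun _ => ih)).image _)
  have hmeas : ∀ t, ∀ f ∈ L t, Measurable f := by
    intro t
    induction t with
    | zero =>
      rintro f (⟨a, rfl⟩ | ⟨z, _, rfl⟩)
      · exact measurable_pi_apply a
      · exact measurable_const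
    | succ t ih =>
      intro f hf
      rw [hLs] at hf
      rcases hf with hf | hf
      · exact ih f hf
      · obtain ⟨k, hf⟩ := mem_iUnion.1 hf
        obtain ⟨j, hf⟩ := mem_iUnion.1 hf
        obtain ⟨y, hy, rfl⟩ := hf
        have hm : Measurable (fun s : Fin (n + 1) → ℂ => fun a => y a s) :=
          measurable_pi_iff.2 fun a => ih _ (hy a)
        exact Measurable.ite (hm (hAz k j)) ((hgz k j).comp hm) (measurable_pi_apply 0)
  have hval : ∀ t, ∀ f ∈ L t, ∀ s, Cl F (A ∪ range s) (f s) := by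
    intro t
    induction t with
    | zero =>
      rintro f (⟨a, rfl⟩ | ⟨z, hz, rfl⟩) s
      · exact Cl.base (Or.inr ⟨a, rfl⟩)
      · exact Cl.mono subset_union_left hz
    | succ t ih =>
      intro f hf s
      rw [hLs] at hf
      rcases hf with hf | hf
      · exact ih f hf s
      · obtain ⟨k, hf⟩ := mem_iUnion.1 hf
        obtain ⟨j, hf⟩ := mem_iUnion.1 hf
        obtain ⟨y, hy, rfl⟩ := hf
        by_cases hc : (fun a => y a s) ∈ Az k j
        · have e : h k j y s = gz k j (fun a => y a s) := if_pos hc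
          rw [e]
          have h1 := (hzz k (fun a => y a s) (gz k j (fun a => y a s))).2 ⟨j, hc, rfl⟩
          exact Cl.zero (fun a => ih _ (hy a) s) h1.1 h1.2
        · have e : h k j y s = s 0 := if_neg hc
          rw [e]
          exact Cl.base (Or.inr ⟨0, rfl⟩)
  have hmono : Monotone L := by
    apply monotone_nat_of_le_succ
    intro t
    rw [hLs]
    exact subset_union_left
  have hsurj : ∀ s z, Cl F (A ∪ range s) z → ∃ t, ∃ f ∈ L t, f s = z := by
    intro s z hz
    induction hz with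
    | base hz =>
      rcases hz with hz | ⟨a, rfl⟩
      · exact ⟨0, _, Or.inr ⟨_, Cl.base hz, rfl⟩, rfl⟩
      · exact ⟨0, _, Or.inl ⟨a, rfl⟩, rfl⟩
    | @zero k y z hy hne hz ih =>
      choose t f hf hfs using ih
      have hT : ∀ a, f a ∈ L (Finset.univ.sup t) := fun a =>
        hmono (Finset.le_sup (Finset.mem_univ a)) (hf a)
      obtain ⟨j, hj, hj'⟩ := (hzz k y z).1 ⟨hne, hz⟩
      have e : (fun a => f a s) = y := funext hfs
      refine ⟨Finset.univ.sup t + 1, h k j f, ?_, ?_⟩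
      · rw [hLs]
        right
        exact mem_iUnion.2 ⟨k, mem_iUnion.2 ⟨j, ⟨f, hT, rfl⟩⟩⟩
      · have hc : (fun a => f a s) ∈ Az k j := by rw [e]; exact hj
        have e2 : h k j f s = gz k j (fun a => f a s) := if_pos hc
        rw [e2, e]
        exact hj'
  have hcU : (⋃ t, L t).Countable := countable_iUnion hcount
  have hne : (⋃ t, L t).Nonempty := ⟨_, mem_iUnion.2 ⟨0, Or.inl ⟨0, rfl⟩⟩⟩
  obtain ⟨g, hg⟩ := hcU.exists_eq_range hne
  have hgm : ∀ i, ∃ t, g i ∈ L t := fun i => by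
    have : g i ∈ ⋃ t, L t := by rw [hg]; exact mem_range_self i
    exact mem_iUnion.1 this
  have hgs : ∀ t, ∀ f ∈ L t, ∃ i, g i = f := fun t f hf => by
    have : f ∈ range g := by rw [← hg]; exact mem_iUnion.2 ⟨t, hf⟩
    exact this
  refine ⟨g, fun i => ?_, fun s => ?_, fun a => ?_, fun z hz => ?_⟩
  · obtain ⟨t, ht⟩ := hgm i
    exact hmeas t _ ht
  · ext z
    constructor
    · rintro ⟨i, rfl⟩
      obtain ⟨t, ht⟩ := hgm i
      exact hval t _ ht s
    · intro hz
      obtain ⟨t, f, hf, hfs⟩ := hsurj s z hz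
      obtain ⟨i, rfl⟩ := hgs t f hf
      exact ⟨i, hfs⟩
  · exact hgs 0 _ (Or.inl ⟨a, rfl⟩)
  · exact hgs 0 _ (Or.inr ⟨z, hz, rfl⟩)

end Pool.Agent.N587.IC
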