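import Pool.Agent.N587.IC.Up
import Pool.Agent.N687.IC_SC

/-!
The theorem on isomorphic closures of generic tuples.
-/

set_option autoImplicit false

namespace Pool.Agent.N587.IC

open Set MeasureTheory
open Pool.Agent.TH735.QM Pool.Agent.TH735.FO Pool.Agent.TH735.BF

theorem generic_iso {m : ℕ → ℕ} {F : (k : ℕ) → (Fin (m k) → ℂ) → ℂ → ℂ} {ν : ℕ → ℕ}
    {R : (j : ℕ) → Set (Fin (ν j) → ℂ)} {A : Set ℂ}
    (hF : ∀ k, AnalyticOnNhd ℂ (fun p : (Fin (m k) → ℂ) × ℂ => F k p.1 p.2) Set.univ)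
    (hord : ∀ k, FiniteOrder (F k)) (hR : ∀ j, CQ (ν j) (R j)) (hRm : ∀ j, MeasurableSet (R j))
    (hA : A.Countable) (n d : ℕ) (φ : (Fin n → ℂ) → (Fin d → ℂ))
    (hφ : AnalyticOnNhd ℂ φ univ) :
    ∃ x₀ : Fin n → ℂ,
      (∀ π : Equiv.Perm (Fin n), AllBut n fun y => ∃ σ, IsIso F R A (φ x₀) (φ (y ∘ π)) σ) ∧
      ∀ (μ : Fin n → Measure ℂ) [∀ i, SigmaFinite (μ i)],
        (∀ i z, μ i {z} = 0) →
        ∀ᵐ y ∂(Measure.pi μ), ∃ σ, IsIso F R A (φ x₀) (φ y) σ :=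
  countable_iso Pool.Agent.N687.IC.t_SC hF hord hR hRm hA n d φ hφ

end Pool.Agent.N587.IC
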