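import Mathlib

/-!
Statements for the project IC (isomorphic closures of almost all tuples of complex numbers).
-/

set_option autoImplicit false

namespace Pool.Agent.N587.IC

open Set MeasureTheory

/-- analytic sets are null-measurable for finite measures -/
def S_AN : Prop :=
  ∀ (α : Type) [TopologicalSpace α] [PolishSpace α] [MeasurableSpace α] [BorelSpace α]
    (μ : Measure α) [IsFiniteMeasure μ] (S : Set α), AnalyticSet S → NullMeasurableSet S μ

/-- `σ` is an isomorphism between the sets enumerated by `g i p`, `i ∈ ℕ`, and by `g i q`, which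
respects the relations `R j` and the named elements `g i`, `i ∈ C`. -/
def IsoAt {P : Type} (g : ℕ → P → ℂ) (C : Set ℕ) {ν : ℕ → ℕ} (R : (j : ℕ) → Set (Fin (ν j) → ℂ))
    (p q : P) (σ : range (fun i => g i p) ≃ range (fun i => g i q)) : Prop :=
  (∀ i ∈ C, (σ ⟨g i p, mem_range_self i⟩ : ℂ) = g i q) ∧
    ∀ (j : ℕ) (v : Fin (ν j) → range (fun i => g i p)),
      (fun a => (v a : ℂ)) ∈ R j ↔ (fun a => (σ (v a) : ℂ)) ∈ R j

/-- being isomorphic is an analytic relation -/
def S_AR : Prop :=
  ∀ (P : Type) [TopologicalSpace P] [PolishSpace P] [MeasurableSpace P] [BorelSpace P]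
    (g : ℕ → P → ℂ), (∀ i, Measurable (g i)) → ∀ (C : Set ℕ) (ν : ℕ → ℕ)
    (R : (j : ℕ) → Set (Fin (ν j) → ℂ)), (∀ j, MeasurableSet (R j)) →
    AnalyticSet {p : P × P | ∃ σ : range (fun i => g i p.1) ≃ range (fun i => g i p.2),
      IsoAt g C R p.1 p.2 σ}

/-- A reflexive and transitive, universally measurable relation `E` between points of `ℂⁿ`, which
holds for any two points of a line parallel to a coordinate axis outside of a countable set, holds
almost everywhere, for every product of probability measures without atoms. -/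
def S_FU : Prop :=
  ∀ (n : ℕ) (μ : Fin n → Measure ℂ) [∀ i, IsProbabilityMeasure (μ i)],
    (∀ i x, μ i {x} = 0) → ∀ (E : (Fin n → ℂ) → (Fin n → ℂ) → Prop), (∀ x, E x x) →
    (∀ x y z, E x y → E y z → E x z) →
    (∀ (ρ : Measure ((Fin n → ℂ) × (Fin n → ℂ))) [IsFiniteMeasure ρ],
      NullMeasurableSet {p : (Fin n → ℂ) × (Fin n → ℂ) | E p.1 p.2} ρ) →
    (∀ (i : Fin n) (x : Fin n → ℂ), ∃ B : Set ℂ, B.Countable ∧ ∀ z ∉ B, ∀ z' ∉ B,
      E (Function.update x i z) (Function.update x i z')) →
    (∀ᵐ p ∂((Measure.pi μ).prod (Measure.pi μ)), E p.1 p.2) ∧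
      ∃ x₀, ∀ᵐ y ∂(Measure.pi μ), E x₀ y

end Pool.Agent.N587.IC
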