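import Pool.Agent.N587.IC.Main
import Pool.Agent.N973.IC_AN
import Pool.Agent.N663.IC_AR
import Pool.Agent.N700.IC_FU

/-!
Almost all tuples of complex numbers have isomorphic closures: the hypotheses of `Main` are proved.
-/

set_option autoImplicit false

namespace Pool.Agent.N587.IC

open Set MeasureTheory
open Pool.Agent.TH735.QM Pool.Agent.TH735.FO Pool.Agent.TH735.BF

theorem t_FU2 : S_FU2 := by
  intro n μ μ' _ _ ha ha' E hr ht hE hB
  have h1 : ∀ i, ∃ ν : Measure ℂ, IsProbabilityMeasure ν ∧ (∀ z, ν {z} = 0) ∧ μ i + μ' i ≪ ν :=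
    fun i => exists_prob (μ i + μ' i) (fun z => by
      rw [Measure.add_apply, ha i z, ha' i z, add_zero])
  choose ν hp hν hac using h1
  have h2 := (Pool.Agent.N700.IC.t_FU n ν hν E hr ht hE hB).1
  have h3 : Measure.pi μ ≪ Measure.pi ν := pi_ac n μ ν fun i =>
    (Measure.absolutelyContinuous_of_le (Measure.le_add_right le_rfl)).trans (hac i)
  have h4 : Measure.pi μ' ≪ Measure.pi ν := pi_ac n μ' ν fun i =>
    (Measure.absolutelyContinuous_of_le (Measure.le_add_left le_rfl)).trans (hac i)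
  exact (h3.prod h4).ae_le h2

variable {m : ℕ → ℕ} {F : (k : ℕ) → (Fin (m k) → ℂ) → ℂ → ℂ} {ν : ℕ → ℕ}
  {R : (j : ℕ) → Set (Fin (ν j) → ℂ)} {A : Set ℂ}

theorem ae_iso
    (hF : ∀ k, AnalyticOnNhd ℂ (fun p : (Fin (m k) → ℂ) × ℂ => F k p.1 p.2) Set.univ)
    (hord : ∀ k, FiniteOrder (F k)) (hR : ∀ j, CQ (ν j) (R j)) (hRm : ∀ j, MeasurableSet (R j))
    (hA : A.Countable) (n d : ℕ) (φ : (Fin n → ℂ) → (Fin d → ℂ))
    (hφ : AnalyticOnNhd ℂ φ univ) :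
    ∃ x₀ : Fin n → ℂ, ∀ (μ : Fin n → Measure ℂ) [∀ i, SigmaFinite (μ i)],
      (∀ i z, μ i {z} = 0) →
      ∀ᵐ y ∂(Measure.pi μ), ∃ σ, IsIso F R A (φ x₀) (φ y) σ :=
  almost_all Pool.Agent.N973.IC.t_AN Pool.Agent.N663.IC.t_AR t_FU2 hF hord hR hRm hA n d φ hφ

end Pool.Agent.N587.IC
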