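import Mathlib

/-!
Two measures in the statement FU of the project IC.
-/

set_option autoImplicit false

namespace Pool.Agent.N587.IC

open Set MeasureTheory

/-- the statement `S_FU` with different measures for the two points -/
def S_FU2 : Prop :=
  ∀ (n : ℕ) (μ μ' : Fin n → Measure ℂ) [∀ i, IsProbabilityMeasure (μ i)]
    [∀ i, IsProbabilityMeasure (μ' i)],
    (∀ i x, μ i {x} = 0) → (∀ i x, μ' i {x} = 0) →
    ∀ (E : (Fin n → ℂ) → (Fin n → ℂ) → Prop), (∀ x, E x x) →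
    (∀ x y z, E x y → E y z → E x z) →
    (∀ (ρ : Measure ((Fin n → ℂ) × (Fin n → ℂ))) [IsFiniteMeasure ρ],
      NullMeasurableSet {p : (Fin n → ℂ) × (Fin n → ℂ) | E p.1 p.2} ρ) →
    (∀ (i : Fin n) (x : Fin n → ℂ), ∃ B : Set ℂ, B.Countable ∧ ∀ z ∉ B, ∀ z' ∉ B,
      E (Function.update x i z) (Function.update x i z')) →
    ∀ᵐ p ∂((Measure.pi μ).prod (Measure.pi μ')), E p.1 p.2

end Pool.Agent.N587.IC
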