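import Pool.Agent.N587.IC.EN
import Pool.Agent.N587.IC.Stm
import Pool.Agent.N587.IC.Stm2

/-!
Almost all tuples of complex numbers have isomorphic closures.
-/

set_option autoImplicit false

namespace Pool.Agent.N587.IC

open Set MeasureTheory
open Pool.Agent.TH735.QM Pool.Agent.TH735.FO Pool.Agent.TH735.BF

/-- `σ` is an isomorphism from the closure of `A ∪ {x₁, …, x_n}` to the closure of
`A ∪ {y₁, …, y_n}` which maps `x_i` to `y_i`, is the identity on the closure of `A` and respects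
the relations `R j`. -/
def IsIso {m : ℕ → ℕ} (F : (k : ℕ) → (Fin (m k) → ℂ) → ℂ → ℂ) {ν : ℕ → ℕ}
    (R : (j : ℕ) → Set (Fin (ν j) → ℂ)) (A : Set ℂ) {n : ℕ} (x y : Fin n → ℂ)
    (σ : {z // Cl F (A ∪ range x) z} ≃ {z // Cl F (A ∪ range y) z}) : Prop :=
  (∀ i, (σ ⟨x i, Cl.base (Or.inr ⟨i, rfl⟩)⟩ : ℂ) = y i) ∧
    (∀ z, ∀ hz : Cl F A z, (σ ⟨z, hz.mono subset_union_left⟩ : ℂ) = z) ∧
    ∀ j, ∀ v : Fin (ν j) → {z // Cl F (A ∪ range x) z},
      (fun a => (v a : ℂ)) ∈ R j ↔ (fun a => (σ (v a) : ℂ)) ∈ R j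

variable {m : ℕ → ℕ} {F : (k : ℕ) → (Fin (m k) → ℂ) → ℂ → ℂ} {ν : ℕ → ℕ}
  {R : (j : ℕ) → Set (Fin (ν j) → ℂ)} {A : Set ℂ} {n : ℕ}

theorem iso_refl (x : Fin n → ℂ) : ∃ σ, IsIso F R A x x σ :=
  ⟨Equiv.refl _, fun _ => rfl, fun _ _ => rfl, fun _ _ => Iff.rfl⟩

theorem iso_trans {x y z : Fin n → ℂ} (h1 : ∃ σ, IsIso F R A x y σ) (h2 : ∃ σ, IsIso F R A y z σ) :
    ∃ σ, IsIso F R A x z σ := by
  obtain ⟨σ, a1, a2, a3⟩ := h1
  obtain ⟨τ, b1, b2, b3⟩ := h2
  refine ⟨σ.trans τ, fun i => ?_, fun w hw => ?_, fun j v => ?_⟩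
  · have e : σ ⟨x i, Cl.base (Or.inr ⟨i, rfl⟩)⟩ = ⟨y i, Cl.base (Or.inr ⟨i, rfl⟩)⟩ :=
      Subtype.ext (a1 i)
    rw [Equiv.trans_apply, e]
    exact b1 i
  · have e : σ ⟨w, hw.mono subset_union_left⟩ = ⟨w, hw.mono subset_union_left⟩ :=
      Subtype.ext (a2 w hw)
    rw [Equiv.trans_apply, e]
    exact b2 w hw
  · exact (a3 j v).trans (b3 j (fun a => σ (v a)))

/-- isomorphisms of closures in terms of an enumeration -/
theorem iso_iff {g : ℕ → (Fin n → ℂ) → ℂ}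
    (hgr : ∀ s, range (fun i => g i s) = {z | Cl F (A ∪ range s) z})
    (hg1 : ∀ a : Fin n, ∃ i, g i = fun s => s a)
    (hg2 : ∀ z, Cl F A z → ∃ i, g i = fun _ => z) (x y : Fin n → ℂ) :
    (∃ σ, IsIso F R A x y σ) ↔ ∃ σ : range (fun i => g i x) ≃ range (fun i => g i y),
      IsoAt g {i | (∃ a : Fin n, g i = fun s => s a) ∨ ∃ z, Cl F A z ∧ g i = fun _ => z}
        R x y σ := by
  have hx := hgr x
  have hy := hgr y
  constructor
  · rintro ⟨σ, a1, a2, a3⟩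
    refine ⟨(Equiv.setCongr hx).trans (σ.trans (Equiv.setCongr hy).symm), ?_, ?_⟩
    · rintro i (⟨a, hi⟩ | ⟨z, hz, hi⟩)
      · have e : (Equiv.setCongr hx) ⟨g i x, mem_range_self i⟩ =
            ⟨x a, Cl.base (Or.inr ⟨a, rfl⟩)⟩ := by
          apply Subtype.ext
          show g i x = x a
          rw [hi]
        show ((Equiv.setCongr hy).symm (σ ((Equiv.setCongr hx) ⟨g i x, mem_range_self i⟩)) : ℂ) =
          g i y
        rw [e]
        show (σ ⟨x a, Cl.base (Or.inr ⟨a, rfl⟩)⟩ : ℂ) = g i y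
        rw [a1 a, hi]
      · have e : (Equiv.setCongr hx) ⟨g i x, mem_range_self i⟩ =
            ⟨z, hz.mono subset_union_left⟩ := by
          apply Subtype.ext
          show g i x = z
          rw [hi]
        show ((Equiv.setCongr hy).symm (σ ((Equiv.setCongr hx) ⟨g i x, mem_range_self i⟩)) : ℂ) =
          g i y
        rw [e]
        show (σ ⟨z, hz.mono subset_union_left⟩ : ℂ) = g i y
        rw [a2 z hz, hi]
    · intro j v
      exact a3 j (fun a => (Equiv.setCongr hx) (v a))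
  · rintro ⟨σ, a1, a2⟩
    refine ⟨(Equiv.setCongr hx).symm.trans (σ.trans (Equiv.setCongr hy)), ?_, ?_, ?_⟩
    · intro a
      obtain ⟨i, hi⟩ := hg1 a
      have e : (Equiv.setCongr hx).symm ⟨x a, Cl.base (Or.inr ⟨a, rfl⟩)⟩ =
          ⟨g i x, mem_range_self i⟩ := by
        apply Subtype.ext
        show x a = g i x
        rw [hi]
      show (σ ((Equiv.setCongr hx).symm ⟨x a, Cl.base (Or.inr ⟨a, rfl⟩)⟩) : ℂ) = y a
      rw [e, a1 i (Or.inl ⟨a, hi⟩), hi]
    · intro z hz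
      obtain ⟨i, hi⟩ := hg2 z hz
      have e : (Equiv.setCongr hx).symm ⟨z, hz.mono subset_union_left⟩ =
          ⟨g i x, mem_range_self i⟩ := by
        apply Subtype.ext
        show z = g i x
        rw [hi]
      show (σ ((Equiv.setCongr hx).symm ⟨z, hz.mono subset_union_left⟩) : ℂ) = z
      rw [e, a1 i (Or.inr ⟨z, hz, hi⟩), hi]
    · intro j v
      exact a2 j (fun a => (Equiv.setCongr hx).symm (v a))

/-- the isomorphism relation is analytic -/
theorem iso_analytic (hAR : S_AR)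
    (hF : ∀ k, AnalyticOnNhd ℂ (fun p : (Fin (m k) → ℂ) × ℂ => F k p.1 p.2) Set.univ)
    (hR : ∀ j, MeasurableSet (R j)) (hA : A.Countable) :
    AnalyticSet {p : (Fin (n + 1) → ℂ) × (Fin (n + 1) → ℂ) | ∃ σ, IsIso F R A p.1 p.2 σ} := by
  obtain ⟨g, hg, hgr, hg1, hg2⟩ := closure_enum hF hA n
  have h := hAR (Fin (n + 1) → ℂ) g hg
    {i | (∃ a : Fin (n + 1), g i = fun s => s a) ∨ ∃ z, Cl F A z ∧ g i = fun _ => z} ν R hR
  convert h using 1
  ext p
  exact iso_iff hgr hg1 hg2 p.1 p.2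

theorem analytic_update (x : Fin n → ℂ) (i : Fin n) :
    AnalyticOnNhd ℂ (fun t : ℂ => Function.update x i t) univ := by
  intro t _
  refine analyticAt_pi_iff.2 fun j => ?_
  by_cases h : j = i
  · subst h
    simp only [Function.update_self]
    exact analyticAt_id
  · simp only [Function.update_of_ne h]
    exact analyticAt_const

theorem pi_ac : ∀ (n : ℕ) (μ γ : Fin n → Measure ℂ) [∀ i, SigmaFinite (μ i)]
    [∀ i, SigmaFinite (γ i)], (∀ i, μ i ≪ γ i) → Measure.pi μ ≪ Measure.pi γ := by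
  intro n
  induction n with
  | zero =>
    intro μ γ _ _ _
    rw [Measure.pi_of_empty, Measure.pi_of_empty]
  | succ n ih =>
    intro μ γ _ _ h
    have h1 := measurePreserving_piFinSuccAbove μ 0
    have h2 := measurePreserving_piFinSuccAbove γ 0
    have h3 : (μ 0).prod (Measure.pi fun j => μ (Fin.succAbove 0 j)) ≪
        (γ 0).prod (Measure.pi fun j => γ (Fin.succAbove 0 j)) :=
      (h 0).prod (ih _ _ fun j => h _)
    have h4 := h3.map (MeasurableEquiv.piFinSuccAbove (fun _ : Fin (n + 1) => ℂ) 0).symm.measurable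
    rw [← h1.map_eq, ← h2.map_eq] at h4
    rw [Measure.map_map (MeasurableEquiv.measurable _) (MeasurableEquiv.measurable _),
      Measure.map_map (MeasurableEquiv.measurable _) (MeasurableEquiv.measurable _)] at h4
    simpa using h4

theorem exists_prob (μ : Measure ℂ) [SigmaFinite μ] (h : ∀ z, μ {z} = 0) :
    ∃ μ' : Measure ℂ, IsProbabilityMeasure μ' ∧ (∀ z, μ' {z} = 0) ∧ μ ≪ μ' := by
  by_cases h0 : μ = 0
  · subst h0
    have h1 : (volume : Measure ℂ) (Metric.ball 0 1) ≠ 0 :=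
      (Metric.measure_ball_pos _ _ one_pos).ne'
    have h2 : (volume : Measure ℂ) (Metric.ball 0 1) ≠ ⊤ := measure_ball_lt_top.ne
    refine ⟨ProbabilityTheory.cond volume (Metric.ball 0 1),
      ProbabilityTheory.cond_isProbabilityMeasure_of_finite h1 h2, fun z => ?_,
      Measure.AbsolutelyContinuous.zero _⟩
    exact ProbabilityTheory.cond_absolutelyContinuous (measure_singleton z)
  · haveI : NeZero μ := ⟨h0⟩
    exact ⟨μ.toFinite, inferInstance, fun z => toFinite_absolutelyContinuous μ (h z),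
      absolutelyContinuous_toFinite μ⟩

theorem almost_all (hAN : S_AN) (hAR : S_AR) (hFU : S_FU2)
    (hF : ∀ k, AnalyticOnNhd ℂ (fun p : (Fin (m k) → ℂ) × ℂ => F k p.1 p.2) Set.univ)
    (hord : ∀ k, FiniteOrder (F k)) (hR : ∀ j, CQ (ν j) (R j)) (hRm : ∀ j, MeasurableSet (R j))
    (hA : A.Countable) (n d : ℕ) (φ : (Fin n → ℂ) → (Fin d → ℂ))
    (hφ : AnalyticOnNhd ℂ φ univ) :
    ∃ x₀ : Fin n → ℂ, ∀ (μ : Fin n → Measure ℂ) [∀ i, SigmaFinite (μ i)],
      (∀ i z, μ i {z} = 0) →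
      ∀ᵐ y ∂(Measure.pi μ), ∃ σ, IsIso F R A (φ x₀) (φ y) σ := by
  rcases d with _ | d
  · refine ⟨0, fun μ _ _ => Filter.Eventually.of_forall fun y => ?_⟩
    have e : φ y = φ 0 := Subsingleton.elim _ _
    rw [e]
    exact iso_refl _
  set E : (Fin n → ℂ) → (Fin n → ℂ) → Prop := fun x y => ∃ σ, IsIso F R A (φ x) (φ y) σ with hE
  have hφc : Continuous φ := continuousOn_univ.1 hφ.continuousOn
  have hEm : ∀ (ρ : Measure ((Fin n → ℂ) × (Fin n → ℂ))) [IsFiniteMeasure ρ],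
      NullMeasurableSet {p : (Fin n → ℂ) × (Fin n → ℂ) | E p.1 p.2} ρ := by
    intro ρ _
    refine hAN _ ρ _ ?_
    have h1 := iso_analytic (n := d) hAR hF hRm hA
    exact h1.preimage (f := fun p : (Fin n → ℂ) × (Fin n → ℂ) => (φ p.1, φ p.2))
      ((hφc.comp continuous_fst).prodMk (hφc.comp continuous_snd))
  have hline : ∀ (i : Fin n) (x : Fin n → ℂ), ∃ B : Set ℂ, B.Countable ∧ ∀ z ∉ B, ∀ z' ∉ B,
      E (Function.update x i z) (Function.update x i z') := by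
    intro i x
    have hγ : AnalyticOnNhd ℂ (fun t : ℂ => φ (Function.update x i t)) univ :=
      hφ.comp (analytic_update x i) (mapsTo_univ _ _)
    obtain ⟨B, hB, h⟩ := closures hF hord hR hA isOpen_univ isPreconnected_univ hγ
    refine ⟨B, hB, fun z hz z' hz' => ?_⟩
    obtain ⟨σ, h1, h2, h3⟩ := h z (mem_univ _) z' (mem_univ _) hz hz'
    exact ⟨σ, h1, h2, h3⟩
  have hfu : ∀ (μ μ' : Fin n → Measure ℂ) [∀ i, IsProbabilityMeasure (μ i)]
      [∀ i, IsProbabilityMeasure (μ' i)], (∀ i x, μ i {x} = 0) → (∀ i x, μ' i {x} = 0) →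
      ∀ᵐ x ∂(Measure.pi μ), ∀ᵐ y ∂(Measure.pi μ'), E x y := by
    intro μ μ' _ _ h h'
    exact Measure.ae_ae_of_ae_prod (hFU n μ μ' h h' E (fun x => iso_refl _)
      (fun x y z h1 h2 => iso_trans h1 h2) hEm hline)
  obtain ⟨γ₀, hγp, hγa, -⟩ := exists_prob 0 (fun z => by simp)
  set γ : Fin n → Measure ℂ := fun _ => γ₀ with hγ
  haveI : ∀ i, IsProbabilityMeasure (γ i) := fun _ => hγp
  have h0 := hfu γ γ (fun _ => hγa) (fun _ => hγa)
  obtain ⟨x₀, hx₀⟩ := h0.exists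
  refine ⟨x₀, fun μ _ hμ => ?_⟩
  have h1 := fun i => exists_prob (μ i) (hμ i)
  choose μ' hp ha hac using h1
  have h2 := hfu γ μ' (fun _ => hγa) ha
  obtain ⟨x, hx1, hx2⟩ := (hx₀.and h2).exists
  have h3 : ∀ᵐ y ∂(Measure.pi μ'), E x₀ y := by
    filter_upwards [hx2] with y hy
    exact iso_trans hx1 hy
  exact (pi_ac n μ μ' hac).ae_le h3

end Pool.Agent.N587.IC
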