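import Pool.Agent.N587.IC.Stm

/-!
Scott's theorem in the form needed for the project IC.
-/

set_option autoImplicit false

namespace Pool.Agent.N587.IC

open Set MeasureTheory

/-- Scott's theorem: the isomorphism class of one countable structure is a Borel set -/
def S_SC : Prop :=
  ∀ (P : Type) [MeasurableSpace P]
    (g : ℕ → P → ℂ), (∀ i, Measurable (g i)) → ∀ (C : Set ℕ) (ν : ℕ → ℕ)
    (R : (j : ℕ) → Set (Fin (ν j) → ℂ)), (∀ j, MeasurableSet (R j)) → ∀ p₀ : P,
    MeasurableSet {q : P | ∃ σ : range (fun i => g i p₀) ≃ range (fun i => g i q),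
      IsoAt g C R p₀ q σ}

end Pool.Agent.N587.IC
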