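import Pool.Agent.N587.IC.Fin
import Pool.Agent.N587.IC.Stm3
import Pool.Agent.Y566.GQ.Msr

/-!
From almost all tuples to all but countably many `x₁`, all but countably many `x₂`, ….
-/

set_option autoImplicit false

namespace Pool.Agent.N587.IC

open Set MeasureTheory
open Pool.Agent.TH735.QM Pool.Agent.TH735.FO Pool.Agent.TH735.BF Pool.Agent.Y566.GQ

/-- For all but countably many `x₁`, for all but countably many `x₂`, …, for all but countably many
`x_n`: `P(x₁, …, x_n)`. -/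
def AllBut : (n : ℕ) → ((Fin n → ℂ) → Prop) → Prop
  | 0, P => P (fun i => i.elim0)
  | n + 1, P => AllBut n (fun s => {z : ℂ | ¬ P (Fin.snoc (α := fun _ => ℂ) s z)}.Countable)

variable {m : ℕ → ℕ} {F : (k : ℕ) → (Fin (m k) → ℂ) → ℂ → ℂ} {ν : ℕ → ℕ}
  {R : (j : ℕ) → Set (Fin (ν j) → ℂ)} {A : Set ℂ}

/-- for a Borel set with countable or cocountable traces on curves which has full measure -/
theorem allBut_of_ae : ∀ (n : ℕ) (X : Set (Fin n → ℂ)), CQ n X → MeasurableSet X →
    (∀ᵐ x ∂(Measure.pi fun _ : Fin n => (volume : Measure ℂ)), x ∈ X) → AllBut n (· ∈ X) := by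
  intro n
  induction n with
  | zero =>
    intro X _ _ h
    rw [Measure.pi_of_empty, ae_dirac_eq] at h
    have h1 : (fun i : Fin 0 => (i.elim0 : ℂ)) = isEmptyElim := Subsingleton.elim _ _
    show (fun i : Fin 0 => (i.elim0 : ℂ)) ∈ X
    rw [h1]
    exact h
  | succ n ih =>
    intro X hX hXm h
    have hc : CQ (n + 1) Xᶜ := CQ.compl hX
    have h1 := CQ_unc hc hXm.compl
    have h2 := meas_unc hc hXm.compl
    have e : {s : Fin n → ℂ | ¬ (Sec Xᶜ s).Countable}ᶜ = {s : Fin n → ℂ |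
        {z : ℂ | ¬ (Fin.snoc (α := fun _ => ℂ) s z : Fin (n + 1) → ℂ) ∈ X}.Countable} := by
      ext s
      simp only [mem_compl_iff, Set.mem_ofPred_eq, not_not]
      exact Iff.rfl
    have h3 : CQ n {s : Fin n → ℂ |
        {z : ℂ | ¬ (Fin.snoc (α := fun _ => ℂ) s z : Fin (n + 1) → ℂ) ∈ X}.Countable} := by
      rw [← e]
      exact CQ.compl h1
    have h4 : MeasurableSet {s : Fin n → ℂ |
        {z : ℂ | ¬ (Fin.snoc (α := fun _ => ℂ) s z : Fin (n + 1) → ℂ) ∈ X}.Countable} := by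
      rw [← e]
      exact h2.compl
    refine ih _ h3 h4 ?_
    -- Fubini
    have hmp := measurePreserving_piFinSuccAbove (fun _ : Fin (n + 1) => (volume : Measure ℂ))
      (Fin.last n)
    have hmp' := hmp.symm
    have h5 : ∀ᵐ p ∂((volume : Measure ℂ).prod (Measure.pi fun _ : Fin n => (volume : Measure ℂ))),
        (Fin.snoc (α := fun _ => ℂ) p.2 p.1 : Fin (n + 1) → ℂ) ∈ X := by
      have h6 := hmp'.quasiMeasurePreserving.ae h
      filter_upwards [h6] with p hp
      have e2 : (MeasurableEquiv.piFinSuccAbove (fun _ : Fin (n + 1) => ℂ) (Fin.last n)).symm p =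
          (Fin.snoc (α := fun _ => ℂ) p.2 p.1 : Fin (n + 1) → ℂ) := by
        show Fin.insertNth (α := fun _ => ℂ) (Fin.last n) p.1 p.2 = _
        rw [Fin.insertNth_last']
      rw [e2] at hp
      exact hp
    have h7 : ∀ᵐ p ∂((Measure.pi fun _ : Fin n => (volume : Measure ℂ)).prod
        (volume : Measure ℂ)), (Fin.snoc (α := fun _ => ℂ) p.1 p.2 : Fin (n + 1) → ℂ) ∈ X :=
      (Measure.measurePreserving_swap (μ := (Measure.pi fun _ : Fin n => (volume : Measure ℂ)))
        (ν := (volume : Measure ℂ))).quasiMeasurePreserving.ae h5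
    have h8 := Measure.ae_ae_of_ae_prod h7
    filter_upwards [h8] with s hs
    rcases Sec_qm hc s with h9 | h9
    · exact h9
    · exfalso
      have h10 : (volume : Measure ℂ) (Sec Xᶜ s)ᶜ = 0 := h9.measure_zero _
      have h11 : (volume : Measure ℂ) (Sec Xᶜ s) = 0 := hs
      have h12 : (volume : Measure ℂ) univ = 0 := by
        rw [← union_compl_self (Sec Xᶜ s)]
        exact measure_union_null h11 h10
      exact absurd h12 (by simp)

theorem class_cq
    (hF : ∀ k, AnalyticOnNhd ℂ (fun p : (Fin (m k) → ℂ) × ℂ => F k p.1 p.2) Set.univ)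
    (hord : ∀ k, FiniteOrder (F k)) (hR : ∀ j, CQ (ν j) (R j)) (hA : A.Countable) {n d : ℕ}
    {φ : (Fin n → ℂ) → (Fin d → ℂ)} (hφ : AnalyticOnNhd ℂ φ univ) (x₀ : Fin d → ℂ) :
    CQ n {y | ∃ σ, IsIso F R A x₀ (φ y) σ} := by
  intro U hU hUc γ hγ
  rcases d with _ | d
  · right
    convert countable_empty using 1
    ext t
    simp only [Set.mem_sdiff, mem_empty_iff_false, iff_false, not_and, not_not]
    intro _
    have e : φ (γ t) = x₀ := Subsingleton.elim _ _
    show ∃ σ, IsIso F R A x₀ (φ (γ t)) σ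
    rw [e]
    exact iso_refl _
  · have hc : AnalyticOnNhd ℂ (fun t : ℂ => φ (γ t)) U := hφ.comp hγ (mapsTo_univ _ _)
    obtain ⟨B, hB, h⟩ := closures hF hord hR hA hU hUc hc
    refine QmOn.of_const hB fun t ht htB t' ht' htB' hS => ?_
    obtain ⟨σ, h1, h2, h3⟩ := h t ht t' ht' htB htB'
    exact iso_trans hS ⟨σ, h1, h2, h3⟩

theorem class_meas (hSC : S_SC)
    (hF : ∀ k, AnalyticOnNhd ℂ (fun p : (Fin (m k) → ℂ) × ℂ => F k p.1 p.2) Set.univ)
    (hRm : ∀ j, MeasurableSet (R j)) (hA : A.Countable) {n d : ℕ}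
    {φ : (Fin n → ℂ) → (Fin d → ℂ)} (hφ : AnalyticOnNhd ℂ φ univ) (x₀ : Fin d → ℂ) :
    MeasurableSet {y | ∃ σ, IsIso F R A x₀ (φ y) σ} := by
  rcases d with _ | d
  · convert MeasurableSet.univ using 1
    ext y
    simp only [mem_univ, iff_true]
    have e : φ y = x₀ := Subsingleton.elim _ _
    show ∃ σ, IsIso F R A x₀ (φ y) σ
    rw [e]
    exact iso_refl _
  · obtain ⟨g, hg, hgr, hg1, hg2⟩ := closure_enum hF hA d
    have h := hSC (Fin (d + 1) → ℂ) g hg
      {i | (∃ a : Fin (d + 1), g i = fun s => s a) ∨ ∃ z, Cl F A z ∧ g i = fun _ => z} ν R hRm x₀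
    have h1 : MeasurableSet {q : Fin (d + 1) → ℂ | ∃ σ, IsIso F R A x₀ q σ} := by
      convert h using 1
      ext q
      exact iso_iff hgr hg1 hg2 x₀ q
    exact (continuousOn_univ.1 hφ.continuousOn).measurable h1

theorem countable_iso (hSC : S_SC)
    (hF : ∀ k, AnalyticOnNhd ℂ (fun p : (Fin (m k) → ℂ) × ℂ => F k p.1 p.2) Set.univ)
    (hord : ∀ k, FiniteOrder (F k)) (hR : ∀ j, CQ (ν j) (R j)) (hRm : ∀ j, MeasurableSet (R j))
    (hA : A.Countable) (n d : ℕ) (φ : (Fin n → ℂ) → (Fin d → ℂ))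
    (hφ : AnalyticOnNhd ℂ φ univ) :
    ∃ x₀ : Fin n → ℂ,
      (∀ π : Equiv.Perm (Fin n), AllBut n fun y => ∃ σ, IsIso F R A (φ x₀) (φ (y ∘ π)) σ) ∧
      ∀ (μ : Fin n → Measure ℂ) [∀ i, SigmaFinite (μ i)],
        (∀ i z, μ i {z} = 0) →
        ∀ᵐ y ∂(Measure.pi μ), ∃ σ, IsIso F R A (φ x₀) (φ y) σ := by
  obtain ⟨x₀, h⟩ := ae_iso hF hord hR hRm hA n d φ hφ
  refine ⟨x₀, fun π => ?_, h⟩
  have hπ : AnalyticOnNhd ℂ (fun y : Fin n → ℂ => y ∘ π) univ := by
    intro y _
    refine analyticAt_pi_iff.2 fun j => ?_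
    exact (ContinuousLinearMap.proj (R := ℂ) (φ := fun _ : Fin n => ℂ) (π j)).analyticAt y
  have hφπ : AnalyticOnNhd ℂ (fun y : Fin n → ℂ => φ (y ∘ π)) univ :=
    hφ.comp hπ (mapsTo_univ _ _)
  have h1 := class_cq hF hord hR hA hφπ (φ x₀)
  have h2 := class_meas hSC hF hRm hA hφπ (φ x₀)
  refine allBut_of_ae n _ h1 h2 ?_
  have h3 := h (fun _ => volume) (fun _ z => measure_singleton z)
  have h4 : MeasurePreserving (fun y : Fin n → ℂ => y ∘ π)
      (Measure.pi fun _ : Fin n => (volume : Measure ℂ))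
      (Measure.pi fun _ : Fin n => (volume : Measure ℂ)) := by
    have hm : Measurable (fun y : Fin n → ℂ => y ∘ π) :=
      measurable_pi_iff.2 fun i => measurable_pi_apply (π i)
    refine ⟨hm, ?_⟩
    symm
    refine Measure.pi_eq fun s hs => ?_
    rw [Measure.map_apply hm (MeasurableSet.univ_pi hs)]
    have e : (fun y : Fin n → ℂ => y ∘ π) ⁻¹' (univ.pi s) = univ.pi (fun i => s (π.symm i)) := by
      ext y
      simp only [mem_preimage, mem_pi, mem_univ, forall_true_left, Function.comp_apply]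
      constructor
      · intro h i
        have := h (π.symm i)
        rwa [Equiv.apply_symm_apply] at this
      · intro h i
        have := h (π i)
        rwa [Equiv.symm_apply_apply] at this
    rw [e, Measure.pi_pi]
    exact Equiv.prod_comp π.symm (fun i => (volume : Measure ℂ) (s i))
  exact h4.quasiMeasurePreserving.ae h3

end Pool.Agent.N587.IC
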